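import Pool.Agent.H31.Frank.Flag

/-!
Opposite vertices for centred polytopes of two-step flag matroids.
-/

namespace Pool.Agent.H31.FlagCaseOld

open H31.Frank

/-- Let `M₁` be a quotient of `M₂` (matroids on the finite set `V`, rank functions `r₁`, `r₂`), let
`f X = r₁ X + r₂ X - |X|` and suppose that `0` lies in the base polyhedron `B(f)`. Then there is a
base `A` of `M₁` whose complement is a base of `M₂`; and for every such `A` there is a set `N`
disjoint from `A` such that `χ_A - χ_N` and its negative are vertices of `B(f)`. -/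
theorem result {V : Type*} [Fintype V] [DecidableEq V] (M₁ M₂ : Matroid V)
    (hE₁ : M₁.E = Set.univ) (hE₂ : M₂.E = Set.univ)
    (hq : ∀ X Y : Finset V, X ⊆ Y → rk M₁ Y - rk M₁ X ≤ rk M₂ Y - rk M₂ X)
    (h0 : (0 : V → ℝ) ∈ Base (cen M₁ M₂)) :
    (∃ A : Finset V, M₁.IsBase (A : Set V) ∧ M₂.IsBase ((A : Set V)ᶜ)) ∧
    ∀ A : Finset V, M₁.IsBase (A : Set V) → M₂.IsBase ((A : Set V)ᶜ) →
      ∃ N : Finset V, Disjoint A N ∧ vec A N ∈ Set.extremePoints ℝ (Base (cen M₁ M₂)) ∧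
        -vec A N ∈ Set.extremePoints ℝ (Base (cen M₁ M₂)) := by
  have h₁ := isRk M₁
  have h₂ := isRk M₂
  have hn : rk M₁ Finset.univ + rk M₂ Finset.univ = (Fintype.card V : ℤ) := by
    have h3 := h0.2
    simp only [Pi.zero_apply, Finset.sum_const_zero, cen, Finset.card_univ] at h3
    have h4 : ((rk M₁ Finset.univ + rk M₂ Finset.univ : ℤ) : ℝ) = ((Fintype.card V : ℤ) : ℝ) := by
      push_cast
      linarith
    exact_mod_cast h4
  have hf : ∀ X : Finset V, (X.card : ℤ) ≤ rk M₁ X + rk M₂ X := by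
    intro X
    have h3 := h0.1 X
    simp only [Pi.zero_apply, Finset.sum_const_zero, cen] at h3
    have h4 : ((X.card : ℤ) : ℝ) ≤ ((rk M₁ X + rk M₂ X : ℤ) : ℝ) := by
      push_cast
      linarith
    exact_mod_cast h4
  refine ⟨?_, ?_⟩
  · obtain ⟨A, hA⟩ := exists_com h₁ h₂ hn hf
    exact ⟨A, (com_iff M₁ M₂ hE₁ hE₂ A).1 hA⟩
  · intro A hA1 hA2
    have hA := (com_iff M₁ M₂ hE₁ hE₂ A).2 ⟨hA1, hA2⟩
    obtain ⟨N, hd, hN⟩ := exists_disjoint_com h₁ h₂ hn hq hA
    refine ⟨N, hd, vertex h₁ h₂ hn hd hA hN, ?_⟩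
    rw [neg_vec]
    exact vertex h₁ h₂ hn hd.symm hN hA

end Pool.Agent.H31.FlagCaseOld
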