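import Mathlib

set_option autoImplicit false

namespace Pool.Agent.H31.TraceAdm

open Matrix

/-- The matrix attached to a letter, over any ring. -/
def G (R : Type) [Ring R] (b : ℕ) : Matrix (Fin 2) (Fin 2) R := !![(b : R), 1; 1, 0]

section grp
variable {R : Type} [CommRing R]

def u (t : R) : SpecialLinearGroup (Fin 2) R := ⟨!![1, t; 0, 1], by simp [Matrix.det_fin_two_of]⟩
def v (t : R) : SpecialLinearGroup (Fin 2) R := ⟨!![1, 0; t, 1], by simp [Matrix.det_fin_two_of]⟩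

lemma u_coe (t : R) : ((u t : SpecialLinearGroup (Fin 2) R) : Matrix (Fin 2) (Fin 2) R) =
    !![1, t; 0, 1] := rfl
lemma v_coe (t : R) : ((v t : SpecialLinearGroup (Fin 2) R) : Matrix (Fin 2) (Fin 2) R) =
    !![1, 0; t, 1] := rfl

lemma u_mul (s t : R) : u s * u t = u (s + t) := by
  apply Subtype.ext
  change (u s * u t : SpecialLinearGroup (Fin 2) R).1 = _
  rw [Matrix.SpecialLinearGroup.coe_mul, u_coe, u_coe, u_coe, Matrix.mul_fin_two]
  simp [add_comm]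

lemma v_mul (s t : R) : v s * v t = v (s + t) := by
  apply Subtype.ext
  change (v s * v t : SpecialLinearGroup (Fin 2) R).1 = _
  rw [Matrix.SpecialLinearGroup.coe_mul, v_coe, v_coe, v_coe, Matrix.mul_fin_two]
  simp

lemma uv_coe (a b : ℕ) : ((u (a : R) * v (b : R) : SpecialLinearGroup (Fin 2) R) :
    Matrix (Fin 2) (Fin 2) R) = G R a * G R b := by
  rw [Matrix.SpecialLinearGroup.coe_mul, u_coe, v_coe, G, G, Matrix.mul_fin_two,
    Matrix.mul_fin_two]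
  simp [add_comm]

lemma trace4 (a b c d : R) :
    Matrix.trace ((u a * v b * (u c * v d) : SpecialLinearGroup (Fin 2) R) :
      Matrix (Fin 2) (Fin 2) R) = a * b * c * d + (a + c) * (b + d) + 2 := by
  rw [Matrix.SpecialLinearGroup.coe_mul, Matrix.SpecialLinearGroup.coe_mul,
    Matrix.SpecialLinearGroup.coe_mul, u_coe, v_coe, u_coe, v_coe, Matrix.mul_fin_two,
    Matrix.mul_fin_two, Matrix.mul_fin_two, Matrix.trace_fin_two]
  simp
  ring

end grp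

/-- Elements represented by nonempty even words in the letters `4, 16`. -/
def P (Q : ℕ) : Set (SpecialLinearGroup (Fin 2) (ZMod Q)) :=
  {g | ∃ l : List ℕ, l ≠ [] ∧ Even l.length ∧ (∀ b ∈ l, b = 4 ∨ b = 16) ∧
    (List.map (G (ZMod Q)) l).prod = (g : Matrix (Fin 2) (Fin 2) (ZMod Q))}

lemma P_mul {Q : ℕ} {g h : SpecialLinearGroup (Fin 2) (ZMod Q)} (hg : g ∈ P Q) (hh : h ∈ P Q) :
    g * h ∈ P Q := by
  obtain ⟨l, h1, h2, h3, h4⟩ := hg
  obtain ⟨l', h1', h2', h3', h4'⟩ := hh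
  refine ⟨l ++ l', by simp [h1], ?_, ?_, ?_⟩
  · rw [List.length_append]; exact h2.add h2'
  · intro b hb
    rcases List.mem_append.mp hb with hb | hb
    · exact h3 b hb
    · exact h3' b hb
  · rw [List.map_append, List.prod_append, h4, h4', Matrix.SpecialLinearGroup.coe_mul]

lemma P_pow {Q : ℕ} {g : SpecialLinearGroup (Fin 2) (ZMod Q)} (hg : g ∈ P Q) (k : ℕ) :
    g ^ (k + 1) ∈ P Q := by
  induction k with
  | zero => simpa using hg
  | succ k ih => rw [pow_succ]; exact P_mul ih hg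

lemma P_inv {Q : ℕ} [NeZero Q] {g : SpecialLinearGroup (Fin 2) (ZMod Q)} (hg : g ∈ P Q) :
    g⁻¹ ∈ P Q := by
  have hpos : 0 < orderOf g := orderOf_pos g
  have h1 : g ^ (2 * orderOf g - 2 + 1) * g = 1 := by
    rw [← pow_succ]
    have : 2 * orderOf g - 2 + 1 + 1 = orderOf g * 2 := by omega
    rw [this, pow_mul, pow_orderOf_eq_one, one_pow]
  have h2 : g⁻¹ = g ^ (2 * orderOf g - 2 + 1) := (eq_inv_of_mul_eq_one_left h1).symm
  rw [h2]
  exact P_pow hg _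

lemma P_base {Q : ℕ} (a b : ℕ) (ha : a = 4 ∨ a = 16) (hb : b = 4 ∨ b = 16) :
    u (a : ZMod Q) * v (b : ZMod Q) ∈ P Q := by
  refine ⟨[a, b], by simp, by simp, ?_, ?_⟩
  · intro c hc
    simp at hc
    rcases hc with rfl | rfl
    · exact ha
    · exact hb
  · rw [uv_coe]; simp

lemma P_all {Q : ℕ} [NeZero Q] (a b : ℕ) (ha : a % 12 = 4) (hb : b % 12 = 4) :
    u (a : ZMod Q) * v (b : ZMod Q) ∈ P Q := by
  have hU : u (12 : ZMod Q) ∈ P Q := by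
    have h := P_mul (P_base (Q := Q) 16 4 (Or.inr rfl) (Or.inl rfl))
      (P_inv (P_base (Q := Q) 4 4 (Or.inl rfl) (Or.inl rfl)))
    have e : u ((16 : ℕ) : ZMod Q) = u 12 * u ((4 : ℕ) : ZMod Q) := by
      rw [u_mul]; congr 1; push_cast; norm_num
    rw [e] at h
    have : u 12 * u ((4 : ℕ) : ZMod Q) * v ((4 : ℕ) : ZMod Q) *
        (u ((4 : ℕ) : ZMod Q) * v ((4 : ℕ) : ZMod Q))⁻¹ = u 12 := by group
    rwa [this] at h
  have hV : v (12 : ZMod Q) ∈ P Q := by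
    have h := P_mul (P_inv (P_base (Q := Q) 4 4 (Or.inl rfl) (Or.inl rfl)))
      (P_base (Q := Q) 4 16 (Or.inl rfl) (Or.inr rfl))
    have e : v ((16 : ℕ) : ZMod Q) = v ((4 : ℕ) : ZMod Q) * v 12 := by
      rw [v_mul]; congr 1; push_cast; norm_num
    rw [e] at h
    have : (u ((4 : ℕ) : ZMod Q) * v ((4 : ℕ) : ZMod Q))⁻¹ *
        (u ((4 : ℕ) : ZMod Q) * (v ((4 : ℕ) : ZMod Q) * v 12)) = v 12 := by group
    rwa [this] at h
  have hUi : ∀ (i : ℕ) (g : SpecialLinearGroup (Fin 2) (ZMod Q)), g ∈ P Q →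
      u ((12 * i : ℕ) : ZMod Q) * g ∈ P Q := by
    intro i
    induction i with
    | zero =>
      intro g hg
      have : u (((12 * 0 : ℕ)) : ZMod Q) = 1 := by
        ext i j; fin_cases i <;> fin_cases j <;> simp [u]
      rw [this, one_mul]; exact hg
    | succ i ih =>
      intro g hg
      have : u (((12 * (i + 1) : ℕ)) : ZMod Q) = u ((12 * i : ℕ) : ZMod Q) * u 12 := by
        rw [u_mul]; congr 1; push_cast; ring
      rw [this, mul_assoc]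
      exact ih _ (P_mul hU hg)
  have hVi : ∀ (i : ℕ) (g : SpecialLinearGroup (Fin 2) (ZMod Q)), g ∈ P Q →
      g * v ((12 * i : ℕ) : ZMod Q) ∈ P Q := by
    intro i
    induction i with
    | zero =>
      intro g hg
      have : v (((12 * 0 : ℕ)) : ZMod Q) = 1 := by
        ext i j; fin_cases i <;> fin_cases j <;> simp [v]
      rw [this, mul_one]; exact hg
    | succ i ih =>
      intro g hg
      have : v (((12 * (i + 1) : ℕ)) : ZMod Q) = v 12 * v ((12 * i : ℕ) : ZMod Q) := by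
        rw [v_mul]; congr 1; push_cast; ring
      rw [this, ← mul_assoc]
      exact ih _ (P_mul hg hV)
  obtain ⟨i, rfl⟩ : ∃ i, a = 12 * i + 4 := ⟨a / 12, by omega⟩
  obtain ⟨k, rfl⟩ : ∃ k, b = 4 + 12 * k := ⟨b / 12, by omega⟩
  have e1 : u (((12 * i + 4 : ℕ)) : ZMod Q) = u ((12 * i : ℕ) : ZMod Q) * u ((4 : ℕ) : ZMod Q) := by
    rw [u_mul]; congr 1; push_cast; ring
  have e2 : v (((4 + 12 * k : ℕ)) : ZMod Q) = v ((4 : ℕ) : ZMod Q) * v ((12 * k : ℕ) : ZMod Q) := by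
    rw [v_mul]; congr 1; push_cast; ring
  rw [e1, e2, mul_assoc, ← mul_assoc (u ((4 : ℕ) : ZMod Q))]
  exact hUi _ _ (hVi _ _ (P_base 4 4 (Or.inl rfl) (Or.inl rfl)))

lemma letters (Q n : ℕ) (hQ : 0 < Q) (hn2 : n % 2 = 1) (hn3 : n % 3 = 0) :
    ∃ a b c d : ℕ, a % 12 = 4 ∧ b % 12 = 4 ∧ c % 12 = 4 ∧ d % 12 = 4 ∧
      ((a * b * c * d + (a + c) * (b + d) + 2 : ℕ) : ZMod Q) = 4 * (n : ZMod Q) ^ 2 - 2 := by
  obtain ⟨f, Q', hQ', hQf⟩ := Nat.exists_eq_pow_mul_and_not_dvd (n := Q) hQ.ne' 3 (by norm_num)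
  have hn1 : 1 ≤ n := by omega
  have hcop : Nat.Coprime (3 ^ (f + 1)) (4 * Q') := by
    apply Nat.Coprime.pow_left
    apply Nat.Coprime.mul_right (by norm_num)
    exact (Nat.Prime.coprime_iff_not_dvd Nat.prime_three).mpr hQ'
  have crt : ∀ r1 r2 : ℕ, r1 % 3 = 1 → r2 % 4 = 0 → ∃ k : ℕ, k % 12 = 4 ∧
      (k : ZMod (3 ^ (f + 1))) = r1 ∧ (k : ZMod (4 * Q')) = r2 := by
    intro r1 r2 h1 h2
    obtain ⟨k, hk1, hk2⟩ := Nat.chineseRemainder hcop r1 r2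
    refine ⟨k, ?_, (ZMod.natCast_eq_natCast_iff _ _ _).mpr hk1,
      (ZMod.natCast_eq_natCast_iff _ _ _).mpr hk2⟩
    have h3 : k ≡ r1 [MOD 3] := hk1.of_dvd (dvd_pow_self 3 (Nat.succ_ne_zero f))
    have h4 : k ≡ r2 [MOD 4] := hk2.of_dvd (dvd_mul_right 4 Q')
    unfold Nat.ModEq at h3 h4
    omega
  have hsq : (n ^ 2 - 1) % 4 = 0 := by
    obtain ⟨m, rfl⟩ : ∃ m, n = 2 * m + 1 := ⟨n / 2, by omega⟩
    have : (2 * m + 1) ^ 2 - 1 = 4 * (m * (m + 1)) := by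
      have : (2 * m + 1) ^ 2 = 4 * (m * (m + 1)) + 1 := by ring
      omega
    rw [this, Nat.mul_mod_right]
  obtain ⟨a, ha, ha1, ha2⟩ := crt 1 4 (by norm_num) (by norm_num)
  obtain ⟨b, hb, hb1, hb2⟩ := crt (2 * n - 2) (n ^ 2 - 1) (by omega) hsq
  obtain ⟨c, hc, hc1, hc2⟩ := crt 1 0 (by norm_num) (by norm_num)
  obtain ⟨d, hd, hd1, hd2⟩ := crt (2 * n - 2) 0 (by omega) (by norm_num)
  refine ⟨a, b, c, d, ha, hb, hc, hd, ?_⟩
  have cast1 : ((2 * n - 2 : ℕ) : ZMod (3 ^ (f + 1))) = 2 * (n : ZMod (3 ^ (f + 1))) - 2 := by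
    rw [Nat.cast_sub (by omega)]; push_cast; ring
  have cast2 : ((n ^ 2 - 1 : ℕ) : ZMod (4 * Q')) = (n : ZMod (4 * Q')) ^ 2 - 1 := by
    rw [Nat.cast_sub (Nat.one_le_pow _ _ hn1)]; push_cast; ring
  rw [cast1] at hb1 hd1
  rw [cast2] at hb2
  have key1 : (((a * b * c * d + (a + c) * (b + d) + 2 : ℕ) : ℤ) : ZMod (3 ^ (f + 1))) =
      ((4 * (n : ℤ) ^ 2 - 2 : ℤ) : ZMod (3 ^ (f + 1))) := by
    push_cast
    rw [ha1, hb1, hc1, hd1]; push_cast; ring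
  have key2 : (((a * b * c * d + (a + c) * (b + d) + 2 : ℕ) : ℤ) : ZMod (4 * Q')) =
      ((4 * (n : ℤ) ^ 2 - 2 : ℤ) : ZMod (4 * Q')) := by
    push_cast
    rw [ha2, hb2, hc2, hd2]; push_cast; ring
  rw [ZMod.intCast_eq_intCast_iff] at key1 key2
  have key3 : ((a * b * c * d + (a + c) * (b + d) + 2 : ℕ) : ℤ) ≡ 4 * (n : ℤ) ^ 2 - 2
      [ZMOD ((3 ^ (f + 1) * (4 * Q') : ℕ) : ℤ)] := by
    have := (Int.modEq_and_modEq_iff_modEq_mul (a := ((a * b * c * d + (a + c) * (b + d) + 2 : ℕ) : ℤ))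
      (b := 4 * (n : ℤ) ^ 2 - 2) (m := ((3 ^ (f + 1) : ℕ) : ℤ)) (n := ((4 * Q' : ℕ) : ℤ)) (by
        rw [Int.natAbs_natCast, Int.natAbs_natCast]; exact hcop)).mp ⟨key1, key2⟩
    push_cast at this ⊢
    exact this
  have hdvd : ((Q : ℕ) : ℤ) ∣ ((3 ^ (f + 1) * (4 * Q') : ℕ) : ℤ) := by
    rw [hQf]
    exact_mod_cast (⟨12, by rw [pow_succ]; ring⟩ : 3 ^ f * Q' ∣ 3 ^ (f + 1) * (4 * Q'))
  have key4 := key3.of_dvd hdvd
  rw [← ZMod.intCast_eq_intCast_iff] at key4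
  push_cast at key4 ⊢
  exact key4

theorem admissible (A : Finset ℕ) (h4 : 4 ∈ A) (h16 : 16 ∈ A) (j : ℕ) (q : ℤ) (hq : 1 ≤ q) :
    ∃ l : List ℕ, l ≠ [] ∧ Even l.length ∧ (∀ b ∈ l, b ∈ A) ∧
      Matrix.trace ((List.map (fun b : ℕ => (!![(b : ℤ), 1; 1, 0] : Matrix (Fin 2) (Fin 2) ℤ)) l).prod)
        ≡ 36 * 25 ^ j - 2 [ZMOD q] := by
  obtain ⟨Q, rfl⟩ := Int.eq_ofNat_of_zero_le (show 0 ≤ q by omega)
  have hQ : 0 < Q := by omega
  haveI : NeZero Q := ⟨hQ.ne'⟩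
  obtain ⟨a, b, c, d, ha, hb, hc, hd, htr⟩ := letters Q (3 * 5 ^ j) hQ
    (by rw [Nat.mul_mod, Nat.pow_mod]; norm_num) (Nat.mul_mod_right _ _)
  obtain ⟨l, h1, h2, h3, h5⟩ := P_mul (P_all (Q := Q) a b ha hb) (P_all (Q := Q) c d hc hd)
  refine ⟨l, h1, h2, ?_, ?_⟩
  · intro b hb
    rcases h3 b hb with rfl | rfl
    · exact h4
    · exact h16
  · rw [← ZMod.intCast_eq_intCast_iff]
    have e1 : ((Matrix.trace ((List.map (fun b : ℕ => (!![(b : ℤ), 1; 1, 0] :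
        Matrix (Fin 2) (Fin 2) ℤ)) l).prod) : ℤ) : ZMod Q) =
        Matrix.trace ((List.map (G (ZMod Q)) l).prod) := by
      have e2 : (List.map (G (ZMod Q)) l).prod = (Int.castRingHom (ZMod Q)).mapMatrix
          ((List.map (fun b : ℕ => (!![(b : ℤ), 1; 1, 0] : Matrix (Fin 2) (Fin 2) ℤ)) l).prod) := by
        rw [map_list_prod, List.map_map]
        congr 1
        apply List.map_congr_left
        intro b _
        ext i j
        fin_cases i <;> fin_cases j <;> simp [G]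
      rw [e2]
      simp [Matrix.trace_fin_two]
    rw [e1, h5, trace4]
    push_cast at htr ⊢
    rw [htr]
    have : (25 : ZMod Q) ^ j = (5 ^ j) ^ 2 := by rw [← pow_mul, mul_comm, pow_mul]; norm_num
    rw [this]; ring

end Pool.Agent.H31.TraceAdm
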