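import Mathlib

set_option autoImplicit false

namespace Pool.Agent.H31.TraceDim

open Filter Topology

/-- Tail values of finite continued fractions. -/
noncomputable def y : ℕ → (ℕ → ℕ) → ℝ
  | 0, _ => 0
  | n + 1, α => 1 / ((α 0 : ℝ) + y n (fun i => α (i + 1)))

lemma y_nonneg (n : ℕ) : ∀ α : ℕ → ℕ, 0 ≤ y n α := by
  induction n with
  | zero => intro α; simp [y]
  | succ n ih =>
    intro α
    rw [y]
    have := ih (fun i => α (i + 1))
    positivity

lemma y_le (n : ℕ) (α : ℕ → ℕ) (h : ∀ i, 4 ≤ α i) : y n α ≤ 1 / 4 := by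
  cases n with
  | zero => simp [y]
  | succ n =>
    rw [y]
    have h1 := y_nonneg n (fun i => α (i + 1))
    have h2 : (4 : ℝ) ≤ α 0 := by exact_mod_cast h 0
    apply one_div_le_one_div_of_le (by norm_num)
    linarith

lemma recip_sub (a s t : ℝ) (ha : 4 ≤ a) (hs : 0 ≤ s) (ht : 0 ≤ t) :
    |1 / (a + s) - 1 / (a + t)| ≤ |s - t| / 16 := by
  have h1 : 0 < a + s := by linarith
  have h2 : 0 < a + t := by linarith
  have h3 : 1 / (a + s) - 1 / (a + t) = (t - s) / ((a + s) * (a + t)) := by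
    field_simp; ring
  rw [h3, abs_div, abs_of_pos (mul_pos h1 h2), abs_sub_comm t s]
  apply div_le_div_of_nonneg_left (abs_nonneg _) (by norm_num)
  nlinarith

lemma y_cauchy (n : ℕ) : ∀ (m : ℕ) (α : ℕ → ℕ), (∀ i, 4 ≤ α i) → n ≤ m →
    |y n α - y m α| ≤ (1 / 2) ^ n := by
  induction n with
  | zero =>
    intro m α h _
    have h1 := y_nonneg m α
    have h2 := y_le m α h
    rw [y, zero_sub, abs_neg, abs_of_nonneg h1]
    norm_num; linarith
  | succ n ih =>
    intro m α h hm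
    obtain ⟨m', rfl⟩ : ∃ m', m = m' + 1 := ⟨m - 1, by omega⟩
    rw [y, y]
    have h3 : (4 : ℝ) ≤ α 0 := by exact_mod_cast h 0
    have h4 := recip_sub (α 0) (y n (fun i => α (i + 1))) (y m' (fun i => α (i + 1))) h3
      (y_nonneg _ _) (y_nonneg _ _)
    have h5 := ih m' (fun i => α (i + 1)) (fun i => h _) (by omega)
    have h6 : (1 / 2 : ℝ) ^ (n + 1) = (1 / 2) ^ n / 2 := by rw [pow_succ]; ring
    rw [h6]
    have h7 : (0 : ℝ) < (1 / 2) ^ n := by positivity
    linarith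

/-- The limit exists. -/
lemma y_tendsto (α : ℕ → ℕ) (h : ∀ i, 4 ≤ α i) : ∃ L, Tendsto (fun n => y n α) atTop (𝓝 L) := by
  apply cauchySeq_tendsto_of_complete
  apply cauchySeq_of_le_tendsto_0 (fun n => (1 / 2 : ℝ) ^ n * 2)
  · intro n m N hn hm
    rw [Real.dist_eq]
    have h1 := y_cauchy N n α h hn
    have h2 := y_cauchy N m α h hm
    have : y n α - y m α = -(y N α - y n α) + (y N α - y m α) := by ring
    rw [this]
    calc |-(y N α - y n α) + (y N α - y m α)| ≤ |-(y N α - y n α)| + |y N α - y m α| := abs_add_le _ _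
      _ ≤ (1 / 2) ^ N * 2 := by rw [abs_neg]; linarith
  · have : Tendsto (fun n : ℕ => (1 / 2 : ℝ) ^ n * 2) atTop (𝓝 (0 * 2)) :=
      (tendsto_pow_atTop_nhds_zero_of_lt_one (by norm_num) (by norm_num)).mul_const 2
    simpa using this

noncomputable def Y (α : ℕ → ℕ) : ℝ := limUnder atTop (fun n => y n α)

lemma Y_tendsto (α : ℕ → ℕ) (h : ∀ i, 4 ≤ α i) : Tendsto (fun n => y n α) atTop (𝓝 (Y α)) :=
  tendsto_nhds_limUnder (y_tendsto α h)

lemma Y_nonneg (α : ℕ → ℕ) (h : ∀ i, 4 ≤ α i) : 0 ≤ Y α :=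
  ge_of_tendsto' (Y_tendsto α h) (fun n => y_nonneg n α)

lemma Y_le (α : ℕ → ℕ) (h : ∀ i, 4 ≤ α i) : Y α ≤ 1 / 4 :=
  le_of_tendsto' (Y_tendsto α h) (fun n => y_le n α h)

lemma Y_rec (α : ℕ → ℕ) (h : ∀ i, 4 ≤ α i) : Y α = 1 / ((α 0 : ℝ) + Y (fun i => α (i + 1))) := by
  have h1 : Tendsto (fun n => y (n + 1) α) atTop (𝓝 (Y α)) :=
    (Y_tendsto α h).comp (tendsto_add_atTop_nat 1)
  have h2 : Tendsto (fun n => y (n + 1) α) atTop (𝓝 (1 / ((α 0 : ℝ) + Y (fun i => α (i + 1))))) := by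
    have h3 := Y_tendsto (fun i => α (i + 1)) (fun i => h _)
    have h4 : (4 : ℝ) ≤ α 0 := by exact_mod_cast h 0
    have h5 := Y_nonneg (fun i => α (i + 1)) (fun i => h _)
    have h6 := (tendsto_const_nhds (x := (α 0 : ℝ)) (f := (atTop : Filter ℕ))).add h3
    have h7 := (tendsto_const_nhds (x := (1 : ℝ)) (f := (atTop : Filter ℕ))).div h6 (by linarith)
    exact h7
  exact tendsto_nhds_unique h1 h2

/-- Lower bound for the distance of two values whose codes first differ at `n`. -/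
lemma Y_sep (K : ℕ) (n : ℕ) : ∀ (α β : ℕ → ℕ), (∀ i, 4 ≤ α i) → (∀ i, 4 ≤ β i) →
    (∀ i, α i ≤ K) → (∀ i, β i ≤ K) → (∀ i < n, α i = β i) → α n ≠ β n →
    (1 / (2 * ((K : ℝ) + 1) ^ 2)) * ∏ i ∈ Finset.range n, (((α i : ℝ) + 1) ^ 2)⁻¹ ≤ |Y α - Y β| := by
  induction n with
  | zero =>
    intro α β hα hβ hαK hβK _ hne
    rw [Y_rec α hα, Y_rec β hβ]
    set s := Y (fun i => α (i + 1)) with hs
    set t := Y (fun i => β (i + 1)) with ht
    have hs0 : 0 ≤ s := Y_nonneg _ (fun i => hα _)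
    have hs1 : s ≤ 1 / 4 := Y_le _ (fun i => hα _)
    have ht0 : 0 ≤ t := Y_nonneg _ (fun i => hβ _)
    have ht1 : t ≤ 1 / 4 := Y_le _ (fun i => hβ _)
    have a4 : (4 : ℝ) ≤ α 0 := by exact_mod_cast hα 0
    have b4 : (4 : ℝ) ≤ β 0 := by exact_mod_cast hβ 0
    have aK : (α 0 : ℝ) ≤ K := by exact_mod_cast hαK 0
    have bK : (β 0 : ℝ) ≤ K := by exact_mod_cast hβK 0
    have hd : (1 : ℝ) ≤ |(α 0 : ℝ) - β 0| := by
      have : (1 : ℤ) ≤ |(α 0 : ℤ) - β 0| := by
        apply Int.one_le_abs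
        intro h
        apply hne
        omega
      exact_mod_cast this
    have h1 : 0 < (α 0 : ℝ) + s := by linarith
    have h2 : 0 < (β 0 : ℝ) + t := by linarith
    have h3 : 1 / ((α 0 : ℝ) + s) - 1 / ((β 0 : ℝ) + t) =
        (((β 0 : ℝ) - α 0) + (t - s)) / (((α 0 : ℝ) + s) * ((β 0 : ℝ) + t)) := by
      field_simp; ring
    rw [h3, abs_div, abs_of_pos (mul_pos h1 h2), Finset.prod_range_zero, mul_one]
    have h4 : (1 / 2 : ℝ) ≤ |((β 0 : ℝ) - α 0) + (t - s)| := by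
      have h5 : |(β 0 : ℝ) - α 0| ≤ |((β 0 : ℝ) - α 0) + (t - s)| + |t - s| := by
        have := abs_sub_abs_le_abs_sub ((β 0 : ℝ) - α 0) (-(t - s))
        rw [abs_neg, sub_neg_eq_add] at this
        linarith
      have h6 : |t - s| ≤ 1 / 4 := by rw [abs_le]; constructor <;> linarith
      rw [abs_sub_comm] at hd
      linarith
    rw [div_le_div_iff₀ (by positivity) (mul_pos h1 h2)]
    have h7 : ((α 0 : ℝ) + s) * ((β 0 : ℝ) + t) ≤ ((K : ℝ) + 1) ^ 2 := by
      rw [sq]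
      apply mul_le_mul <;> linarith
    have h8 : (0 : ℝ) < ((K : ℝ) + 1) ^ 2 := by positivity
    nlinarith
  | succ n ih =>
    intro α β hα hβ hαK hβK hag hne
    have h0 : α 0 = β 0 := hag 0 (by omega)
    rw [Y_rec α hα, Y_rec β hβ, ← h0]
    have hrec := ih (fun i => α (i + 1)) (fun i => β (i + 1)) (fun i => hα _) (fun i => hβ _)
      (fun i => hαK _) (fun i => hβK _) (fun i hi => hag _ (by omega)) hne
    set s := Y (fun i => α (i + 1)) with hs
    set t := Y (fun i => β (i + 1)) with ht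
    have hs0 : 0 ≤ s := Y_nonneg _ (fun i => hα _)
    have hs1 : s ≤ 1 / 4 := Y_le _ (fun i => hα _)
    have ht0 : 0 ≤ t := Y_nonneg _ (fun i => hβ _)
    have ht1 : t ≤ 1 / 4 := Y_le _ (fun i => hβ _)
    have a4 : (4 : ℝ) ≤ α 0 := by exact_mod_cast hα 0
    have h1 : 0 < (α 0 : ℝ) + s := by linarith
    have h2 : 0 < (α 0 : ℝ) + t := by linarith
    have h3 : 1 / ((α 0 : ℝ) + s) - 1 / ((α 0 : ℝ) + t) =
        (t - s) / (((α 0 : ℝ) + s) * ((α 0 : ℝ) + t)) := by
      field_simp; ring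
    rw [h3, abs_div, abs_of_pos (mul_pos h1 h2), abs_sub_comm t s, Finset.prod_range_succ']
    have h7 : ((α 0 : ℝ) + s) * ((α 0 : ℝ) + t) ≤ ((α 0 : ℝ) + 1) ^ 2 := by
      rw [sq]
      apply mul_le_mul <;> linarith
    have h8 : (((α 0 : ℝ) + 1) ^ 2)⁻¹ ≤ (((α 0 : ℝ) + s) * ((α 0 : ℝ) + t))⁻¹ :=
      inv_anti₀ (mul_pos h1 h2) h7
    rw [div_eq_mul_inv, ← mul_assoc]
    exact mul_le_mul hrec h8 (by positivity) (abs_nonneg _)

lemma mulG (a : ℝ) (M : Matrix (Fin 2) (Fin 2) ℝ) :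
    ((!![a, 1; 1, 0] : Matrix (Fin 2) (Fin 2) ℝ) * M) 0 0 = a * M 0 0 + M 1 0 ∧
    ((!![a, 1; 1, 0] : Matrix (Fin 2) (Fin 2) ℝ) * M) 1 0 = M 0 0 := by
  constructor
  · rw [Matrix.mul_apply, Fin.sum_univ_two]; simp
  · rw [Matrix.mul_apply, Fin.sum_univ_two]; simp

/-- The ratios of the statement are the convergents. -/
lemma mat (n : ℕ) : ∀ a : ℕ → ℕ, (∀ i, 4 ≤ a i) →
    let M := (List.map (fun j : ℕ => (!![(a j : ℝ), 1; 1, 0] : Matrix (Fin 2) (Fin 2) ℝ))
                (List.range (n + 1))).prod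
    0 < M 0 0 ∧ 0 < M 1 0 ∧ M 0 0 / M 1 0 = (a 0 : ℝ) + y n (fun i => a (i + 1)) := by
  induction n with
  | zero =>
    intro a h
    have h4 : (4 : ℝ) ≤ a 0 := by exact_mod_cast h 0
    simp [y]
    have := h 0
    omega
  | succ n ih =>
    intro a h
    have h4 : (4 : ℝ) ≤ a 0 := by exact_mod_cast h 0
    obtain ⟨i1, i2, i3⟩ := ih (fun i => a (i + 1)) (fun i => h _)
    rw [List.range_succ_eq_map, List.map_cons, List.prod_cons, List.map_map]
    set M' := (List.map (fun j : ℕ => (!![(a (j + 1) : ℝ), 1; 1, 0] : Matrix (Fin 2) (Fin 2) ℝ))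
                (List.range (n + 1))).prod with hM'
    have hM'' : (List.map ((fun j : ℕ => (!![(a j : ℝ), 1; 1, 0] : Matrix (Fin 2) (Fin 2) ℝ)) ∘
        Nat.succ) (List.range (n + 1))).prod = M' := rfl
    rw [hM'']
    intro M
    have e0 : M 0 0 = (a 0 : ℝ) * M' 0 0 + M' 1 0 := (mulG _ _).1
    have e1 : M 1 0 = M' 0 0 := (mulG _ _).2
    refine ⟨?_, ?_, ?_⟩
    · rw [e0]; positivity
    · rw [e1]; exact i1
    · rw [e0, e1, y]
      have this : ((a (0 + 1) : ℕ) : ℝ) + y n (fun i => a (i + 1 + 1)) = M' 0 0 / M' 1 0 :=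
        i3.symm
      change _ = (a 0 : ℝ) + 1 / (((a (0 + 1) : ℕ) : ℝ) + y n (fun i => a (i + 1 + 1)))
      rw [this]
      field_simp


section coding

variable (m : ℕ) (p : ℕ → ℝ)

/-- cumulative weights -/
noncomputable def cum (j : ℕ) : ℝ := ∑ i ∈ Finset.range j, p i

open Classical in
/-- the digit of a point of `[0,1)` -/
noncomputable def dig (x : ℝ) : ℕ :=
  if h : ∃ j, j < m ∧ cum p j ≤ x ∧ x < cum p (j + 1) then h.choose else 0

/-- the expanding map -/
noncomputable def T (x : ℝ) : ℝ := (x - cum p (dig m p x)) / p (dig m p x)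

variable {m p}

lemma dig_spec (hsum : cum p m = 1) {x : ℝ} (h0 : 0 ≤ x) (h1 : x < 1) :
    dig m p x < m ∧ cum p (dig m p x) ≤ x ∧ x < cum p (dig m p x + 1) := by
  have hex : ∃ j, j < m ∧ cum p j ≤ x ∧ x < cum p (j + 1) := by
    classical
    have hex' : ∃ j, x < cum p j := ⟨m, by rw [hsum]; exact h1⟩
    have hs := Nat.find_spec hex'
    have hmin : ∀ k, k < Nat.find hex' → ¬ x < cum p k := fun k hk => Nat.find_min hex' hk
    have hle : Nat.find hex' ≤ m := Nat.find_min' hex' (by rw [hsum]; exact h1)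
    have hpos : Nat.find hex' ≠ 0 := by
      intro h
      rw [h] at hs
      simp [cum] at hs
      linarith
    obtain ⟨k, hk⟩ := Nat.exists_eq_succ_of_ne_zero hpos
    refine ⟨k, by omega, ?_, ?_⟩
    · exact not_lt.mp (hmin k (by omega))
    · rw [hk] at hs; exact hs
  unfold dig
  rw [dif_pos hex]
  exact hex.choose_spec

lemma T_mem (hp : ∀ j, 0 < p j) (hsum : cum p m = 1) {x : ℝ} (h0 : 0 ≤ x) (h1 : x < 1) :
    0 ≤ T m p x ∧ T m p x < 1 := by
  obtain ⟨_, h2, h3⟩ := dig_spec hsum h0 h1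
  unfold T
  constructor
  · apply div_nonneg _ (hp _).le
    linarith
  · rw [div_lt_one (hp _)]
    have : cum p (dig m p x + 1) = cum p (dig m p x) + p (dig m p x) := Finset.sum_range_succ _ _
    linarith

lemma iter_mem (hp : ∀ j, 0 < p j) (hsum : cum p m = 1) (n : ℕ) : ∀ {x : ℝ}, 0 ≤ x → x < 1 →
    0 ≤ (T m p)^[n] x ∧ (T m p)^[n] x < 1 := by
  induction n with
  | zero => intro x h0 h1; exact ⟨h0, h1⟩
  | succ n ih =>
    intro x h0 h1
    rw [Function.iterate_succ_apply]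
    obtain ⟨h2, h3⟩ := T_mem hp hsum h0 h1
    exact ih h2 h3

lemma expand (hp : ∀ j, 0 < p j) (hsum : cum p m = 1) (n : ℕ) : ∀ {x z : ℝ}, 0 ≤ x → x < 1 →
    0 ≤ z → z < 1 → (∀ i < n, dig m p ((T m p)^[i] x) = dig m p ((T m p)^[i] z)) →
    |x - z| = (∏ i ∈ Finset.range n, p (dig m p ((T m p)^[i] x))) *
      |(T m p)^[n] x - (T m p)^[n] z| := by
  induction n with
  | zero => intro x z _ _ _ _ _; simp
  | succ n ih =>
    intro x z h0 h1 h2 h3 hag
    have hd : dig m p x = dig m p z := hag 0 (by omega)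
    obtain ⟨t0, t1⟩ := T_mem hp hsum h0 h1
    obtain ⟨s0, s1⟩ := T_mem hp hsum h2 h3
    have hrec := ih t0 t1 s0 s1 (fun i hi => by
      have := hag (i + 1) (by omega)
      rwa [Function.iterate_succ_apply, Function.iterate_succ_apply] at this)
    rw [Finset.prod_range_succ', Function.iterate_succ_apply, Function.iterate_succ_apply]
    have hprod : ∏ i ∈ Finset.range n, p (dig m p ((T m p)^[i + 1] x)) =
        ∏ i ∈ Finset.range n, p (dig m p ((T m p)^[i] (T m p x))) := by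
      apply Finset.prod_congr rfl
      intro i _
      rw [Function.iterate_succ_apply]
    rw [hprod]
    have hx : x = cum p (dig m p x) + p (dig m p x) * T m p x := by
      unfold T
      have := (hp (dig m p x)).ne'
      field_simp
      ring
    have hz : z = cum p (dig m p x) + p (dig m p x) * T m p z := by
      rw [hd]
      unfold T
      have := (hp (dig m p z)).ne'
      field_simp
      ring
    have hxz : x - z = p (dig m p x) * (T m p x - T m p z) := by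
      calc x - z = (cum p (dig m p x) + p (dig m p x) * T m p x) -
            (cum p (dig m p x) + p (dig m p x) * T m p z) := by rw [← hx, ← hz]
        _ = _ := by ring
    rw [hxz, abs_mul, abs_of_pos (hp _), hrec]
    simp only [Function.iterate_zero, id_eq]
    ring

/-- the code of a point -/
noncomputable def code (m : ℕ) (p : ℕ → ℝ) (x : ℝ) : ℕ → ℕ :=
  fun i => 4 + 12 * dig m p ((T m p)^[i] x)

lemma holder (r : ℝ) (hr : 1 / 2 ≤ r) (hp : ∀ j, 0 < p j) (hsum : cum p m = 1)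
    (hpr : ∀ j, p j ≤ (((((4 + 12 * j : ℕ) : ℝ) + 1) ^ 2)⁻¹) ^ r) {x z : ℝ}
    (h0 : 0 ≤ x) (h1 : x < 1) (h2 : 0 ≤ z) (h3 : z < 1) :
    |x - z| ≤ (2 * (((4 + 12 * m : ℕ) : ℝ) + 1) ^ 2 * |Y (code m p x) - Y (code m p z)|) ^ r := by
  have hpos : ∀ i, 4 ≤ code m p x i := fun i => by unfold code; omega
  have hposz : ∀ i, 4 ≤ code m p z i := fun i => by unfold code; omega
  by_cases hall : ∀ i, dig m p ((T m p)^[i] x) = dig m p ((T m p)^[i] z)
  · -- then x = z
    have hle : ∀ n : ℕ, |x - z| ≤ (1 / 5 : ℝ) ^ n := by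
      intro n
      rw [expand hp hsum n h0 h1 h2 h3 (fun i _ => hall i)]
      have hb : ∀ j, p j ≤ 1 / 5 := by
        intro j
        refine (hpr j).trans ?_
        have h5 : (((((4 + 12 * j : ℕ) : ℝ) + 1) ^ 2)⁻¹) ≤ (5 ^ 2 : ℝ)⁻¹ := by
          apply inv_anti₀ (by norm_num)
          apply pow_le_pow_left₀ (by norm_num)
          push_cast
          have : (0 : ℝ) ≤ j := Nat.cast_nonneg _
          linarith
        calc (((((4 + 12 * j : ℕ) : ℝ) + 1) ^ 2)⁻¹) ^ r ≤ ((5 ^ 2 : ℝ)⁻¹) ^ r :=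
              Real.rpow_le_rpow (by positivity) h5 (by linarith)
          _ ≤ ((5 ^ 2 : ℝ)⁻¹) ^ (1 / 2 : ℝ) :=
              Real.rpow_le_rpow_of_exponent_ge (by positivity) (by norm_num) hr
          _ = 1 / 5 := by
              rw [← Real.sqrt_eq_rpow, Real.sqrt_inv, Real.sqrt_sq (by norm_num)]; norm_num
      have h6 : ∏ i ∈ Finset.range n, p (dig m p ((T m p)^[i] x)) ≤ (1 / 5 : ℝ) ^ n := by
        calc ∏ i ∈ Finset.range n, p (dig m p ((T m p)^[i] x)) ≤ ∏ i ∈ Finset.range n, (1 / 5 : ℝ) :=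
              Finset.prod_le_prod (fun i _ => (hp _).le) (fun i _ => hb _)
          _ = (1 / 5 : ℝ) ^ n := by simp
      have h7 : |(T m p)^[n] x - (T m p)^[n] z| ≤ 1 := by
        obtain ⟨a1, a2⟩ := iter_mem hp hsum n h0 h1
        obtain ⟨a3, a4⟩ := iter_mem hp hsum n h2 h3
        rw [abs_le]; constructor <;> linarith
      calc _ ≤ (1 / 5 : ℝ) ^ n * 1 :=
            mul_le_mul h6 h7 (abs_nonneg _) (by positivity)
        _ = _ := mul_one _
    have hlim : Tendsto (fun n : ℕ => (1 / 5 : ℝ) ^ n) atTop (𝓝 0) :=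
      tendsto_pow_atTop_nhds_zero_of_lt_one (by norm_num) (by norm_num)
    have h8 : |x - z| ≤ 0 := ge_of_tendsto' hlim hle
    refine h8.trans ?_
    positivity
  · push Not at hall
    classical
    have hs := Nat.find_spec hall
    have hmin : ∀ i, i < Nat.find hall → dig m p ((T m p)^[i] x) = dig m p ((T m p)^[i] z) := by
      intro i hi
      have := Nat.find_min hall hi
      push Not at this
      exact this
    set n := Nat.find hall with hn
    rw [expand hp hsum n h0 h1 h2 h3 hmin]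
    have hdx : ∀ i, dig m p ((T m p)^[i] x) < m := fun i => by
      obtain ⟨a1, a2⟩ := iter_mem hp hsum i h0 h1
      exact (dig_spec hsum a1 a2).1
    have hdz : ∀ i, dig m p ((T m p)^[i] z) < m := fun i => by
      obtain ⟨a1, a2⟩ := iter_mem hp hsum i h2 h3
      exact (dig_spec hsum a1 a2).1
    have hsep := Y_sep (4 + 12 * m) n (code m p x) (code m p z) hpos hposz
      (fun i => by unfold code; have := hdx i; omega)
      (fun i => by unfold code; have := hdz i; omega)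
      (fun i hi => by unfold code; rw [hmin i hi])
      (by unfold code; intro h; apply hs; omega)
    have h7 : |(T m p)^[n] x - (T m p)^[n] z| ≤ 1 := by
      obtain ⟨a1, a2⟩ := iter_mem hp hsum n h0 h1
      obtain ⟨a3, a4⟩ := iter_mem hp hsum n h2 h3
      rw [abs_le]; constructor <;> linarith
    have h6 : ∏ i ∈ Finset.range n, p (dig m p ((T m p)^[i] x)) ≤
        (∏ i ∈ Finset.range n, (((code m p x i : ℝ) + 1) ^ 2)⁻¹) ^ r := by
      rw [← Real.finsetProd_rpow _ _ (fun i _ => by positivity)]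
      apply Finset.prod_le_prod (fun i _ => (hp _).le)
      intro i _
      exact hpr _
    have hK : (0 : ℝ) < 2 * (((4 + 12 * m : ℕ) : ℝ) + 1) ^ 2 := by positivity
    have h9 : ∏ i ∈ Finset.range n, (((code m p x i : ℝ) + 1) ^ 2)⁻¹ ≤
        2 * (((4 + 12 * m : ℕ) : ℝ) + 1) ^ 2 * |Y (code m p x) - Y (code m p z)| := by
      have h10 := mul_le_mul_of_nonneg_left hsep hK.le
      have h11 : 2 * (((4 + 12 * m : ℕ) : ℝ) + 1) ^ 2 *
          (1 / (2 * (((4 + 12 * m : ℕ) : ℝ) + 1) ^ 2) *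
            ∏ i ∈ Finset.range n, (((code m p x i : ℝ) + 1) ^ 2)⁻¹) =
          ∏ i ∈ Finset.range n, (((code m p x i : ℝ) + 1) ^ 2)⁻¹ := by
        rw [← mul_assoc, mul_one_div_cancel hK.ne', one_mul]
      rwa [h11] at h10
    calc (∏ i ∈ Finset.range n, p (dig m p ((T m p)^[i] x))) *
          |(T m p)^[n] x - (T m p)^[n] z| ≤
          (∏ i ∈ Finset.range n, p (dig m p ((T m p)^[i] x))) * 1 :=
          mul_le_mul_of_nonneg_left h7 (Finset.prod_nonneg (fun i _ => (hp _).le))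
      _ ≤ (∏ i ∈ Finset.range n, (((code m p x i : ℝ) + 1) ^ 2)⁻¹) ^ r := by
          rw [mul_one]; exact h6
      _ ≤ _ := Real.rpow_le_rpow (Finset.prod_nonneg (fun i _ => by positivity)) h9 (by linarith)

end coding


open scoped NNReal ENNReal

/-- The continued fraction Cantor set of the statement. -/
def CF (A : Finset ℕ) : Set ℝ := {x : ℝ | ∃ a : ℕ → ℕ, (∀ j, a j ∈ A) ∧
          Tendsto (fun n : ℕ =>
            ((List.map (fun j : ℕ => (!![(a j : ℝ), 1; 1, 0] : Matrix (Fin 2) (Fin 2) ℝ))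
                (List.range (n + 1))).prod 0 0) /
            ((List.map (fun j : ℕ => (!![(a j : ℝ), 1; 1, 0] : Matrix (Fin 2) (Fin 2) ℝ))
                (List.range (n + 1))).prod 1 0)) atTop (𝓝 x)}

lemma mem_CF {A : Finset ℕ} (h4 : 4 ∈ A) (α : ℕ → ℕ) (hα : ∀ i, α i ∈ A) (hpos : ∀ i, 4 ≤ α i) :
    4 + Y α ∈ CF A := by
  refine ⟨fun i => Nat.casesOn i 4 α, ?_, ?_⟩
  · intro j
    cases j with
    | zero => exact h4
    | succ j => exact hα j
  · have hge : ∀ i, 4 ≤ (fun i => Nat.casesOn i 4 α : ℕ → ℕ) i := by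
      intro i
      cases i with
      | zero => exact le_refl _
      | succ i => exact hpos i
    have h := (tendsto_const_nhds (x := (4 : ℝ)) (f := (atTop : Filter ℕ))).add (Y_tendsto α hpos)
    refine h.congr ?_
    intro n
    have hm := (mat n (fun i => Nat.casesOn i 4 α) hge).2.2
    rw [hm]
    norm_num

theorem dim_lower (m : ℕ) (r : ℝ≥0) (hr : (1 / 2 : ℝ) ≤ r)
    (hS : 1 ≤ ∑ j ∈ Finset.range m, (((((4 + 12 * j : ℕ) : ℝ) + 1) ^ 2)⁻¹) ^ (r : ℝ))
    (A : Finset ℕ) (hA : ∀ j < m, 4 + 12 * j ∈ A) :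
    (r : ℝ≥0∞) ≤ dimH (CF A) := by
  set S := ∑ j ∈ Finset.range m, (((((4 + 12 * j : ℕ) : ℝ) + 1) ^ 2)⁻¹) ^ (r : ℝ) with hSdef
  have hm : 0 < m := by
    rcases Nat.eq_zero_or_pos m with h | h
    · rw [hSdef, h] at hS; simp at hS; linarith
    · exact h
  have h4A : 4 ∈ A := by simpa using hA 0 hm
  let p : ℕ → ℝ := fun j => (((((4 + 12 * j : ℕ) : ℝ) + 1) ^ 2)⁻¹) ^ (r : ℝ) / S
  have hSpos : 0 < S := by linarith
  have hp : ∀ j, 0 < p j := fun j => div_pos (Real.rpow_pos_of_pos (by positivity) _) hSpos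
  have hsum : cum p m = 1 := by
    change ∑ j ∈ Finset.range m, (((((4 + 12 * j : ℕ) : ℝ) + 1) ^ 2)⁻¹) ^ (r : ℝ) / S = 1
    rw [← Finset.sum_div, ← hSdef, div_self hSpos.ne']
  have hpr : ∀ j, p j ≤ (((((4 + 12 * j : ℕ) : ℝ) + 1) ^ 2)⁻¹) ^ (r : ℝ) := fun j =>
    div_le_self (Real.rpow_nonneg (by positivity) _) hS
  set I : Set ℝ := Set.Ico 0 1 with hI
  let g : ℝ → ℝ := fun x => 4 + Y (code m p x)
  have hcode4 : ∀ x i, 4 ≤ code m p x i := fun x i => by unfold code; omega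
  have hsub : g '' I ⊆ CF A := by
    rintro _ ⟨x, hx, rfl⟩
    apply mem_CF h4A
    · intro i
      obtain ⟨a1, a2⟩ := iter_mem hp hsum i hx.1 hx.2
      exact hA _ (dig_spec hsum a1 a2).1
    · exact hcode4 x
  have hH : ∀ x ∈ I, ∀ z ∈ I, |x - z| ≤
      (2 * (((4 + 12 * m : ℕ) : ℝ) + 1) ^ 2 * |g x - g z|) ^ (r : ℝ) := by
    intro x hx z hz
    have := holder (m := m) (p := p) r hr hp hsum hpr hx.1 hx.2 hz.1 hz.2
    have e : g x - g z = Y (code m p x) - Y (code m p z) := by simp [g]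
    rw [e]; exact this
  have hinj : Set.InjOn g I := by
    intro x hx z hz h
    have := hH x hx z hz
    rw [h, sub_self, abs_zero, mul_zero, Real.zero_rpow (by linarith)] at this
    have := abs_nonpos_iff.mp this
    linarith
  let f : ℝ → ℝ := Function.invFunOn g I
  have hf : ∀ x ∈ I, f (g x) = x := fun x hx => hinj.leftInvOn_invFunOn hx
  set C : ℝ := (2 * (((4 + 12 * m : ℕ) : ℝ) + 1) ^ 2) ^ (r : ℝ) with hC
  have hCpos : 0 ≤ C := by positivity
  have hHold : HolderOnWith (NNReal.mk C hCpos) r f (g '' I) := by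
    rintro _ ⟨x, hx, rfl⟩ _ ⟨z, hz, rfl⟩
    rw [hf x hx, hf z hz, edist_dist, edist_dist, Real.dist_eq, Real.dist_eq]
    rw [ENNReal.ofReal_rpow_of_nonneg (abs_nonneg _) (by linarith)]
    have e : ((NNReal.mk C hCpos : ℝ≥0) : ℝ≥0∞) = ENNReal.ofReal C := by
      rw [ENNReal.ofReal_eq_coe_nnreal hCpos]
    rw [e, ← ENNReal.ofReal_mul hCpos]
    apply ENNReal.ofReal_le_ofReal
    rw [hC, ← Real.mul_rpow (by positivity) (abs_nonneg _)]
    exact hH x hx z hz
  have hr0 : 0 < r := by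
    have : (0 : ℝ) < r := by linarith
    exact_mod_cast this
  have himg : f '' (g '' I) = I := by
    rw [Set.image_image]
    ext x
    constructor
    · rintro ⟨z, hz, rfl⟩
      simpa [hf z hz] using hz
    · intro hx
      exact ⟨x, hx, hf x hx⟩
  have h1 := hHold.dimH_image_le hr0
  rw [himg] at h1
  have h2 : dimH I = 1 := by
    have : (interior I).Nonempty := by
      rw [hI, interior_Ico]
      exact ⟨1 / 2, by norm_num, by norm_num⟩
    rw [Real.dimH_of_nonempty_interior this]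
    simp
  rw [h2] at h1
  have h3 : (r : ℝ≥0∞) ≤ dimH (g '' I) := by
    have h4 := (ENNReal.le_div_iff_mul_le (Or.inl (by exact_mod_cast hr0.ne'))
      (Or.inl ENNReal.coe_ne_top)).mp h1
    rwa [one_mul] at h4
  exact h3.trans (dimH_mono hsub)

/-- There is a finite alphabet `{4, 16, ..., 4 + 12 (m-1)}` with dimension above `1/2`. -/
theorem exists_dim : ∃ m : ℕ, 2 ≤ m ∧ ∀ A : Finset ℕ, (∀ j < m, 4 + 12 * j ∈ A) →
    (1 / 2 : ℝ≥0∞) < dimH (CF A) := by
  have hdiv := Real.tendsto_sum_range_one_div_nat_succ_atTop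
  obtain ⟨m, hm2, hm⟩ : ∃ m : ℕ, 2 ≤ m ∧ (13 : ℝ) ≤ ∑ i ∈ Finset.range m, 1 / ((i : ℝ) + 1) := by
    obtain ⟨m, hm⟩ := (hdiv.eventually_ge_atTop 13).exists_forall_of_atTop
    exact ⟨max m 2, le_max_right _ _, hm _ (le_max_left _ _)⟩
  let F : ℝ → ℝ := fun s => ∑ j ∈ Finset.range m, (((((4 + 12 * j : ℕ) : ℝ) + 1) ^ 2)⁻¹) ^ s
  have hF : 1 < F (1 / 2) := by
    have h1 : ∀ j ∈ Finset.range m, (1 / 12) * (1 / ((j : ℝ) + 1)) ≤
        (((((4 + 12 * j : ℕ) : ℝ) + 1) ^ 2)⁻¹) ^ (1 / 2 : ℝ) := by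
      intro j _
      rw [← Real.sqrt_eq_rpow, Real.sqrt_inv, Real.sqrt_sq (by positivity), ← one_div,
        one_div_mul_one_div]
      apply one_div_le_one_div_of_le (by positivity)
      push_cast
      have : (0 : ℝ) ≤ j := Nat.cast_nonneg _
      linarith
    have h2 : (1 / 12 : ℝ) * 13 ≤ F (1 / 2) := by
      calc (1 / 12 : ℝ) * 13 ≤ (1 / 12) * ∑ i ∈ Finset.range m, 1 / ((i : ℝ) + 1) := by
            linarith
        _ = ∑ i ∈ Finset.range m, (1 / 12) * (1 / ((i : ℝ) + 1)) := by rw [Finset.mul_sum]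
        _ ≤ F (1 / 2) := Finset.sum_le_sum h1
    linarith
  have hcont : ContinuousAt F (1 / 2) := by
    apply tendsto_finsetSum
    intro j _
    apply Real.continuousAt_const_rpow
    positivity
  have hev : ∀ᶠ s in 𝓝 (1 / 2 : ℝ), 1 < F s := hcont.eventually (lt_mem_nhds hF)
  obtain ⟨ε, hε, hball⟩ := Metric.eventually_nhds_iff.mp hev
  refine ⟨m, hm2, fun A hA => ?_⟩
  have hFr := hball (y := 1 / 2 + ε / 2) (by
    rw [Real.dist_eq]
    rw [add_sub_cancel_left, abs_of_pos (by linarith)]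
    linarith)
  have hr0 : (0 : ℝ) ≤ 1 / 2 + ε / 2 := by linarith
  have h := dim_lower m (NNReal.mk (1 / 2 + ε / 2) hr0) (by rw [NNReal.coe_mk]; linarith)
    (by rw [NNReal.coe_mk]; exact hFr.le) A hA
  refine lt_of_lt_of_le ?_ h
  have : (1 / 2 : ℝ≥0∞) = ((1 / 2 : ℝ≥0) : ℝ≥0∞) := by
    rw [ENNReal.coe_div (by norm_num)]; simp
  rw [this]
  apply ENNReal.coe_lt_coe.mpr
  rw [← NNReal.coe_lt_coe, NNReal.coe_mk]
  push_cast
  linarith

end Pool.Agent.H31.TraceDim
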