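import Mathlib

set_option autoImplicit false

namespace Pool.Agent.H31.TraceObs

open NumberTheorySymbols

/-- Invariance of the Jacobi symbol of the first column under left multiplication. -/
lemma step (x z a b : ℕ) (hx : Odd x) (ha : 4 ∣ a) :
    J(((z + b * x : ℕ) : ℤ) | x + a * (z + b * x)) = J((z : ℤ) | x) := by
  have h1 : J(((z + b * x : ℕ) : ℤ) | x) = J((z : ℤ) | x) := by
    apply jacobiSym.mod_left'
    push_cast
    simp [Int.add_emod]
  rw [← h1]
  obtain ⟨a', rfl⟩ := ha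
  have hodd : Odd (x + 4 * a' * (z + b * x)) := by
    have : Even (4 * a' * (z + b * x)) := by
      refine ⟨2 * a' * (z + b * x), by ring⟩
    exact hx.add_even this
  rw [jacobiSym.mod_right' _ hodd, jacobiSym.mod_right' (z + b * x) hx]
  congr 1
  have : x + 4 * a' * (z + b * x) = x + (4 * (z + b * x)) * a' := by ring
  rw [this, Nat.add_mul_mod_self_left]

lemma final (x y z w j : ℕ) (hj : 1 ≤ j) (hdet : x * w = y * z + 1)
    (htr : x + w + 2 = 4 * (3 * 5 ^ j) ^ 2) (hx : x % 16 = 1) (hz : 0 < z)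
    (hx3 : x % 3 = 2) (hy3 : y % 3 = 0) (hz3 : z % 3 = 0) :
    J((z : ℤ) | x) = -1 := by
  have hxodd : Odd x := Nat.odd_iff.mpr (by omega)
  have hx4 : x % 4 = 1 := by omega
  -- main identity
  have key : (x + 1) ^ 2 + y * z = (2 * (3 * 5 ^ j)) ^ 2 * x := by
    have : (2 * (3 * 5 ^ j)) ^ 2 * x = x * (x + w + 2) := by rw [htr]; ring
    rw [this]; nlinarith [hdet]
  obtain ⟨z1, rfl⟩ : 3 ∣ z := Nat.dvd_of_mod_eq_zero hz3
  obtain ⟨y1, rfl⟩ : 3 ∣ y := Nat.dvd_of_mod_eq_zero hy3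
  obtain ⟨u, hu⟩ : 3 ∣ x + 1 := by omega
  have h5 : (5 ^ j) ^ 2 % 3 = 1 := by
    rw [← pow_mul, mul_comm, pow_mul, Nat.pow_mod]; norm_num
  have key2 : u ^ 2 + y1 * z1 = 4 * ((5 ^ j) ^ 2 * x) := by
    have : 9 * (u ^ 2 + y1 * z1) = 9 * (4 * ((5 ^ j) ^ 2 * x)) := by
      have h := key
      rw [hu] at h
      nlinarith [h]
    omega
  have hz1 : ¬ 3 ∣ z1 := by
    rintro ⟨z2, rfl⟩
    have h1 : (4 * ((5 ^ j) ^ 2 * x)) % 3 = 2 := by
      rw [Nat.mul_mod, Nat.mul_mod ((5 ^ j) ^ 2), h5, hx3]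
    have h2 : (u ^ 2 + y1 * (3 * z2)) % 3 = u ^ 2 % 3 := by
      have : u ^ 2 + y1 * (3 * z2) = u ^ 2 + 3 * (y1 * z2) := by ring
      rw [this, Nat.add_mul_mod_self_left]
    rw [key2, h1] at h2
    have h3 : u % 3 = 0 ∨ u % 3 = 1 ∨ u % 3 = 2 := by omega
    rcases h3 with h3 | h3 | h3 <;> simp [Nat.pow_mod, h3] at h2
  -- factor z1
  obtain ⟨e, m, hm, hz1e⟩ := Nat.exists_eq_two_pow_mul_odd (n := z1) (by rintro rfl; simp at hz)
  obtain ⟨c, r, hr5, hmr⟩ := Nat.exists_eq_pow_mul_and_not_dvd (n := m) (by rintro rfl; simp at hm) 5 (by norm_num)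
  have hz' : 3 * z1 = 2 ^ e * (3 * (5 ^ c * r)) := by rw [hz1e, hmr]; ring
  have hrodd : Odd r := by
    rw [hmr] at hm
    exact (Nat.odd_mul.mp hm).2
  have hr3 : ¬ 3 ∣ r := by
    intro h
    apply hz1
    rw [hz1e, hmr]
    exact (h.mul_left _).mul_left _
  have hx_r : Nat.Coprime x r := by
    have h1 : r ∣ 3 * z1 := by rw [hz']; exact ⟨2 ^ e * (3 * 5 ^ c), by ring⟩
    have hxz : Nat.Coprime x (3 * z1) := by
      have h2 : Nat.gcd x (3 * z1) ∣ x * w := (Nat.gcd_dvd_left _ _).mul_right _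
      have h3 : Nat.gcd x (3 * z1) ∣ 3 * y1 * (3 * z1) := (Nat.gcd_dvd_right _ _).mul_left _
      rw [hdet] at h2
      exact Nat.dvd_one.mp ((Nat.dvd_add_right h3).mp h2)
    exact Nat.Coprime.coprime_dvd_right h1 hxz
  have h2r : Nat.Coprime (2 * (3 * 5 ^ j)) r := by
    apply Nat.Coprime.mul_left
    · exact Nat.coprime_two_left.mpr hrodd
    · apply Nat.Coprime.mul_left
      · exact (Nat.Prime.coprime_iff_not_dvd Nat.prime_three).mpr hr3
      · exact Nat.Coprime.pow_left _ ((Nat.Prime.coprime_iff_not_dvd Nat.prime_five).mpr hr5)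
  -- the value of the symbol
  have hsplit : J(((3 * z1 : ℕ) : ℤ) | x) =
      J(2 | x) ^ e * (J(3 | x) * (J(5 | x) ^ c * J((r : ℤ) | x))) := by
    rw [hz']
    push_cast
    rw [jacobiSym.mul_left, jacobiSym.mul_left, jacobiSym.mul_left, jacobiSym.pow_left,
      jacobiSym.pow_left]
  have hJ2 : J(2 | x) = 1 := by
    rw [jacobiSym.at_two hxodd, ZMod.χ₈_nat_eq_if_mod_eight]
    have h1 : x % 2 ≠ 0 := by omega
    have h2 : x % 8 = 1 := by omega
    simp [h1, h2]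
  have hJ3 : J(3 | x) = -1 := by
    have h := jacobiSym.quadratic_reciprocity_one_mod_four' (a := 3) (b := x) (by decide) hx4
    have h' : J(3 | x) = J((x : ℤ) | 3) := by exact_mod_cast h
    rw [h', jacobiSym.mod_left]
    have h3 : ((x : ℤ) % ((3 : ℕ) : ℤ)) = 2 := by omega
    rw [h3]
    norm_num
  have hJ5 : c ≠ 0 → J(5 | x) = 1 := by
    intro hc
    have h := jacobiSym.quadratic_reciprocity_one_mod_four' (a := 5) (b := x) (by decide) hx4
    have h' : J(5 | x) = J((x : ℤ) | 5) := by exact_mod_cast h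
    rw [h', jacobiSym.mod_left]
    have h5z : 5 ∣ 3 * z1 := by
      rw [hz']
      obtain ⟨c', rfl⟩ := Nat.exists_eq_succ_of_ne_zero hc
      exact ⟨2 ^ e * (3 * (5 ^ c' * r)), by rw [pow_succ]; ring⟩
    have h5n : 5 ∣ (2 * (3 * 5 ^ j)) ^ 2 * x := by
      obtain ⟨j', rfl⟩ := Nat.exists_eq_succ_of_ne_zero (show j ≠ 0 by omega)
      exact ⟨4 * 9 * 5 ^ j' * 5 ^ (j' + 1) * x, by rw [Nat.succ_eq_add_one, pow_succ]; ring⟩
    rw [← key] at h5n
    have h5x : 5 ∣ (x + 1) ^ 2 := (Nat.dvd_add_left (h5z.mul_left _)).mp h5n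
    have h5x' : 5 ∣ x + 1 := Nat.prime_five.dvd_of_dvd_pow h5x
    have h3 : ((x : ℤ) % ((5 : ℕ) : ℤ)) = 4 := by omega
    rw [h3]
    norm_num
  have hJr : J((r : ℤ) | x) = 1 := by
    have h := jacobiSym.quadratic_reciprocity_one_mod_four' (a := r) (b := x) hrodd hx4
    rw [h]
    have h1 : J(((2 * (3 * 5 ^ j) : ℕ) : ℤ) ^ 2 | r) = 1 := by
      apply jacobiSym.sq_one'
      rw [Int.gcd_natCast_natCast]
      exact h2r
    have h2 : J((x : ℤ) | r) = J((((x + 1 : ℕ) : ℤ)) | r) ^ 2 := by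
      calc J((x : ℤ) | r) = J(((2 * (3 * 5 ^ j) : ℕ) : ℤ) ^ 2 | r) * J((x : ℤ) | r) := by
            rw [h1, one_mul]
        _ = J((((2 * (3 * 5 ^ j)) ^ 2 * x : ℕ) : ℤ) | r) := by
            rw [← jacobiSym.mul_left]; push_cast; rfl
        _ = J(((x + 1 : ℕ) : ℤ) ^ 2 | r) := by
            rw [← key, hz']
            apply jacobiSym.mod_left'
            push_cast
            have : ((x : ℤ) + 1) ^ 2 + 3 * y1 * (2 ^ e * (3 * (5 ^ c * r))) =
              ((x : ℤ) + 1) ^ 2 + (r : ℤ) * (3 * y1 * (2 ^ e * (3 * 5 ^ c))) := by ring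
            rw [this, Int.add_mul_emod_self_left]
        _ = J((((x + 1 : ℕ) : ℤ)) | r) ^ 2 := jacobiSym.pow_left _ _ _
    have h3 : J((x : ℤ) | r) ≠ 0 := by
      apply jacobiSym.ne_zero
      rw [Int.gcd_natCast_natCast]
      exact hx_r
    rcases jacobiSym.trichotomy (((x + 1 : ℕ) : ℤ)) r with h4 | h4 | h4
    · rw [h4] at h2; rw [h2] at h3; simp at h3
    · rw [h2, h4]; norm_num
    · rw [h2, h4]; norm_num
  rw [hsplit, hJ2, hJ3, hJr]
  by_cases hc : c = 0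
  · subst hc; norm_num
  · rw [hJ5 hc]; norm_num


/-- The matrix attached to a letter. -/
def G (b : ℕ) : Matrix (Fin 2) (Fin 2) ℤ := !![(b : ℤ), 1; 1, 0]

lemma inv : ∀ (l : List ℕ), Even l.length → (∀ b ∈ l, b % 12 = 4) →
    ∃ x y z w : ℕ, (List.map G l).prod = !![(x : ℤ), (y : ℤ); (z : ℤ), (w : ℤ)] ∧
      x * w = y * z + 1 ∧ x % 16 = 1 ∧ w % 16 = 1 ∧ y % 4 = 0 ∧ z % 4 = 0 ∧
      J((z : ℤ) | x) = 1 ∧
      ((x % 3 = 1 ∧ y % 3 = 0 ∧ z % 3 = 0 ∧ w % 3 = 1) ∨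
       (x % 3 = 2 ∧ y % 3 = 1 ∧ z % 3 = 1 ∧ w % 3 = 1) ∨
       (x % 3 = 2 ∧ y % 3 = 0 ∧ z % 3 = 0 ∧ w % 3 = 2) ∨
       (x % 3 = 1 ∧ y % 3 = 2 ∧ z % 3 = 2 ∧ w % 3 = 2)) ∧
      (l ≠ [] → 0 < z)
  | [], _, _ => by
      refine ⟨1, 0, 0, 1, ?_, by norm_num, by norm_num, by norm_num, by norm_num, by norm_num,
        by simp, ?_, by simp⟩
      · simp [Matrix.one_fin_two]
      · left; norm_num
  | [a], h, _ => by simp at h
  | (a :: b :: l), h, hA => by
      have hl : Even l.length := by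
        have : (a :: b :: l).length = l.length + 2 := rfl
        rw [this] at h
        exact (Nat.even_add.mp h).mpr (by decide)
      obtain ⟨x, y, z, w, hM, hdet, hx, hw, hy, hz, hJ, h3, -⟩ :=
        inv l hl (fun c hc => hA c (by simp [hc]))
      have ha : a % 12 = 4 := hA a (by simp)
      have hb : b % 12 = 4 := hA b (by simp)
      obtain ⟨a', rfl⟩ : 4 ∣ a := by omega
      obtain ⟨b', rfl⟩ : 4 ∣ b := by omega
      obtain ⟨y', rfl⟩ : 4 ∣ y := by omega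
      obtain ⟨z', rfl⟩ : 4 ∣ z := by omega
      have ha3 : a' % 3 = 1 := by omega
      have hb3 : b' % 3 = 1 := by omega
      refine ⟨x + 4 * a' * (4 * z' + 4 * b' * x), 4 * y' + 4 * a' * (w + 4 * b' * (4 * y')),
        4 * z' + 4 * b' * x, w + 4 * b' * (4 * y'), ?_, ?_, ?_, ?_, ?_, ?_, ?_, ?_, ?_⟩
      · rw [List.map_cons, List.map_cons, List.prod_cons, List.prod_cons, hM]
        ext i j
        fin_cases i <;> fin_cases j <;>
          simp [G, Matrix.mul_apply, Fin.sum_univ_two] <;> ring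
      · nlinarith [hdet]
      · have : x + 4 * a' * (4 * z' + 4 * b' * x) = x + 16 * (a' * (z' + b' * x)) := by ring
        rw [this, Nat.add_mul_mod_self_left, hx]
      · have : w + 4 * b' * (4 * y') = w + 16 * (b' * y') := by ring
        rw [this, Nat.add_mul_mod_self_left, hw]
      · have : 4 * y' + 4 * a' * (w + 4 * b' * (4 * y')) =
          4 * (y' + a' * (w + 4 * b' * (4 * y'))) := by ring
        rw [this, Nat.mul_mod_right]
      · have : 4 * z' + 4 * b' * x = 4 * (z' + b' * x) := by ring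
        rw [this, Nat.mul_mod_right]
      · have hxo : Odd x := Nat.odd_iff.mpr (by omega)
        rw [step x (4 * z') (4 * a') (4 * b') hxo ⟨a', rfl⟩, hJ]
      · have e1 : (x + 4 * a' * (4 * z' + 4 * b' * x)) % 3 = (x + (4 * z' + x)) % 3 := by
          have h1 : (4 * a' * (4 * z' + 4 * b' * x)) % 3 = (4 * z' + x) % 3 := by
            simp [Nat.mul_mod, Nat.add_mod, ha3, hb3]
          rw [Nat.add_mod, h1, ← Nat.add_mod]
        have e2 : (4 * z' + 4 * b' * x) % 3 = (4 * z' + x) % 3 := by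
          simp [Nat.mul_mod, Nat.add_mod, hb3]
        have e3 : (w + 4 * b' * (4 * y')) % 3 = (w + 4 * y') % 3 := by
          simp [Nat.mul_mod, Nat.add_mod, hb3]
        have e4 : (4 * y' + 4 * a' * (w + 4 * b' * (4 * y'))) % 3 = (4 * y' + (w + 4 * y')) % 3 := by
          have h1 : (4 * a' * (w + 4 * b' * (4 * y'))) % 3 = (w + 4 * y') % 3 := by
            simp [Nat.mul_mod, Nat.add_mod, ha3, hb3]
          rw [Nat.add_mod, h1, ← Nat.add_mod]
        rw [e1, e2, e3, e4]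
        rcases h3 with h3 | h3 | h3 | h3
        · right; left; omega
        · right; right; left; omega
        · right; right; right; omega
        · left; omega
      · intro _
        have : 0 < x := by omega
        have : 0 < b' := by omega
        positivity

theorem no_trace (l : List ℕ) (hl : l ≠ []) (he : Even l.length) (hA : ∀ b ∈ l, b % 12 = 4)
    (j : ℕ) (hj : 1 ≤ j) :
    Matrix.trace ((List.map (fun b : ℕ => (!![(b : ℤ), 1; 1, 0] : Matrix (Fin 2) (Fin 2) ℤ)) l).prod)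
      ≠ 36 * 25 ^ j - 2 := by
  intro htr
  obtain ⟨x, y, z, w, hM, hdet, hx, hw, hy, hz, hJ, h3, hpos⟩ := inv l he hA
  have hM' : (List.map (fun b : ℕ => (!![(b : ℤ), 1; 1, 0] : Matrix (Fin 2) (Fin 2) ℤ)) l).prod
      = !![(x : ℤ), (y : ℤ); (z : ℤ), (w : ℤ)] := hM
  rw [hM', Matrix.trace_fin_two] at htr
  simp at htr
  have htr' : x + w + 2 = 4 * (3 * 5 ^ j) ^ 2 := by
    have h25 : (25 : ℤ) ^ j = (5 ^ j) ^ 2 := by rw [← pow_mul, mul_comm, pow_mul]; norm_num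
    rw [h25] at htr
    have : (x : ℤ) + w + 2 = 4 * (3 * 5 ^ j) ^ 2 := by rw [htr]; ring
    exact_mod_cast this
  have h5 : (4 * (3 * 5 ^ j) ^ 2) % 3 = 0 := by
    have : 4 * (3 * 5 ^ j) ^ 2 = 3 * (12 * (5 ^ j) ^ 2) := by ring
    rw [this, Nat.mul_mod_right]
  have hsum : (x + w + 2) % 3 = 0 := by rw [htr', h5]
  have h3' : x % 3 = 2 ∧ y % 3 = 0 ∧ z % 3 = 0 := by omega
  have := final x y z w j hj hdet htr' hx (hpos hl) h3'.1 h3'.2.1 h3'.2.2
  rw [hJ] at this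
  norm_num at this

end Pool.Agent.H31.TraceObs
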